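import Pool.Agent.H421Z.Kol.Seq
import Pool.Agent.H421Z.Prim

set_option autoImplicit false

namespace Pool.Agent.H421Z.Kol

open Finset Pool.Agent.H421Z.Prim

/-- The sequence of the least valid candidates. -/
noncomputable def sq (V : ℕ → ℕ → ℕ → Prop) : ℕ → ℕ
  | 0 => 0
  | j + 1 => sInf {c | ∀ b, V (sq V j) c b}

/-- The check of a guessed history. -/
def Chk (V : ℕ → ℕ → ℕ → Prop) (h : List ℕ) (T b : ℕ) : Prop :=
  ∀ i, i < h.length → (V ((0 :: h).getD i 0) (h.getD i 0) b ∧
    ∀ c, c < h.getD i 0 → ∃ t, t < T ∧ ¬ V ((0 :: h).getD i 0) c t)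

theorem chk_sound (V : ℕ → ℕ → ℕ → Prop) (h : List ℕ) (T : ℕ) (hc : ∀ b, Chk V h T b) (i : ℕ)
    (hi : i ≤ h.length) : (0 :: h).getD i 0 = sq V i := by
  induction i with
  | zero => rfl
  | succ i ih =>
    have h1 := ih (by omega)
    rw [List.getD_cons_succ]
    have hmem : h.getD i 0 ∈ {c | ∀ b, V (sq V i) c b} := by
      intro b
      rw [← h1]
      exact (hc b i (by omega)).1
    apply le_antisymm
    · by_contra hlt
      have h2 : sq V (i + 1) < h.getD i 0 := not_le.mp hlt
      obtain ⟨t, _, ht⟩ := (hc 0 i (by omega)).2 _ h2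
      rw [h1] at ht
      exact ht (Nat.sInf_mem ⟨_, hmem⟩ t)
    · exact Nat.sInf_le hmem

theorem chk_complete (V : ℕ → ℕ → ℕ → Prop) (hex : ∀ j, ∃ c, ∀ b, V (sq V j) c b) (J : ℕ) :
    ∃ (h : List ℕ) (T : ℕ), h.length = J ∧ ∀ b, Chk V h T b := by
  set h : List ℕ := (List.range J).map (fun i => sq V (i + 1)) with hh
  have hlen : h.length = J := by simp [hh]
  have h1 : ∀ i, i < J → h.getD i 0 = sq V (i + 1) := by
    intro i hi
    rw [List.getD_eq_getElem _ _ (by omega)]
    simp [hh]
  have h2 : ∀ i, i < J → (0 :: h).getD i 0 = sq V i := by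
    intro i hi
    cases i with
    | zero => rfl
    | succ i => rw [List.getD_cons_succ, h1 i (by omega)]
  have h3 : ∀ᶠ T in Filter.atTop, ∀ i ∈ range J, ∀ c ∈ range (sq V (i + 1)),
      ∃ t, t < T ∧ ¬ V (sq V i) c t := by
    rw [Filter.eventually_all_finset]
    intro i _
    rw [Filter.eventually_all_finset]
    intro c hc
    have : c ∉ {c | ∀ b, V (sq V i) c b} := Nat.notMem_of_lt_sInf (mem_range.mp hc)
    simp only [Set.mem_ofPred_eq, not_forall] at this
    obtain ⟨t, ht⟩ := this
    filter_upwards [Filter.eventually_gt_atTop t] with T hT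
    exact ⟨t, hT, ht⟩
  obtain ⟨T, hT⟩ := h3.exists
  refine ⟨h, T, hlen, ?_⟩
  intro b i hi
  rw [hlen] at hi
  rw [h1 i hi, h2 i hi]
  refine ⟨Nat.sInf_mem (hex i) b, fun c hc => hT i (mem_range.mpr hi) c (mem_range.mpr hc)⟩

/-- The number coded by a binary string. -/
def val (σ : List Bool) : ℕ := σ.foldl (fun a b => 2 * a + cond b 1 0) 0

theorem foldl_val (σ : List Bool) (a : ℕ) :
    σ.foldl (fun a b => 2 * a + cond b 1 0) a = a * 2 ^ σ.length + val σ := by
  induction σ generalizing a with
  | nil => simp [val]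
  | cons b σ ih =>
    unfold val
    rw [List.foldl_cons, List.foldl_cons, ih, ih, List.length_cons]
    ring

theorem val_cons (b : Bool) (σ : List Bool) : val (b :: σ) = cond b 1 0 * 2 ^ σ.length + val σ := by
  have := foldl_val σ (2 * 0 + cond b 1 0)
  simpa [val] using this

theorem val_lt (σ : List Bool) : val σ < 2 ^ σ.length := by
  induction σ with
  | nil => simp [val]
  | cons b σ ih =>
    rw [val_cons, List.length_cons, pow_succ]
    cases b <;> simp <;> omega

theorem val_inj (σ τ : List Bool) (hl : σ.length = τ.length) (hv : val σ = val τ) : σ = τ := by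
  induction σ generalizing τ with
  | nil => exact (List.length_eq_zero_iff.mp hl.symm).symm
  | cons b σ ih =>
    cases τ with
    | nil => simp at hl
    | cons c τ =>
      have hl' : σ.length = τ.length := by simpa using hl
      rw [val_cons, val_cons, hl'] at hv
      have h1 := val_lt σ
      have h2 := val_lt τ
      rw [hl'] at h1
      have : b = c ∧ val σ = val τ := by
        cases b <;> cases c <;> simp at hv ⊢ <;> omega
      rw [this.1, ih τ hl' this.2]

/-- Code of the prefix of length `n`. -/
def pre (X : ℕ → Bool) (n : ℕ) : ℕ := val (List.ofFn (fun i : Fin n => X i))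

theorem pre_succ (X : ℕ → Bool) (n : ℕ) : pre X (n + 1) = 2 * pre X n + cond (X n) 1 0 := by
  unfold pre val
  rw [List.ofFn_succ_last, List.foldl_append]
  simp

theorem pre_lt (X : ℕ → Bool) (n : ℕ) : pre X n < 2 ^ n := by
  have := val_lt (List.ofFn (fun i : Fin n => X i))
  rwa [List.length_ofFn] at this

theorem pre_div (X : ℕ → Bool) (m n : ℕ) (h : m ≤ n) : pre X n / 2 ^ (n - m) = pre X m := by
  induction n, h using Nat.le_induction with
  | base => simp
  | succ n h ih =>
    rw [show n + 1 - m = (n - m) + 1 by omega, pow_succ, mul_comm, ← Nat.div_div_eq_div_mul,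
      pre_succ, ← ih]
    congr 1
    cases X n <;> simp <;> omega

/-- All strings of length below `L`. -/
def allQ : ℕ → Finset (List Bool)
  | 0 => ∅
  | L + 1 => insert [] ((allQ L).image (List.cons true) ∪ (allQ L).image (List.cons false))

theorem card_allQ (L : ℕ) : (allQ L).card + 1 ≤ 2 ^ L := by
  induction L with
  | zero => simp [allQ]
  | succ L ih =>
    have h1 := card_insert_le ([] : List Bool)
      ((allQ L).image (List.cons true) ∪ (allQ L).image (List.cons false))
    have h2 := card_union_le ((allQ L).image (List.cons true)) ((allQ L).image (List.cons false))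
    have h3 : ((allQ L).image (List.cons true)).card ≤ (allQ L).card := card_image_le
    have h4 : ((allQ L).image (List.cons false)).card ≤ (allQ L).card := card_image_le
    rw [allQ, pow_succ]
    omega

theorem mem_allQ (L : ℕ) (q : List Bool) (h : q.length < L) : q ∈ allQ L := by
  induction L generalizing q with
  | zero => omega
  | succ L ih =>
    rw [allQ]
    cases q with
    | nil => exact mem_insert_self _ _
    | cons b q =>
      apply mem_insert_of_mem
      have := ih q (by simpa using h)
      cases b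
      · exact mem_union_right _ (mem_image_of_mem _ this)
      · exact mem_union_left _ (mem_image_of_mem _ this)

/-- Compressible strings. -/
def UU (U : List Bool →. List Bool) (d n x : ℕ) : Prop :=
  ∃ q σ, σ ∈ U q ∧ q.length + d < n ∧ σ.length = n ∧ val σ = x

open Classical in
theorem UU_card (U : List Bool →. List Bool) (d n : ℕ) :
    ((range (2 ^ n)).filter (fun x => UU U d n x)).card * 2 ^ d ≤ 2 ^ n := by
  have h1 : (range (2 ^ n)).filter (fun x => UU U d n x) ⊆
      (allQ (n - d)).image (fun q => if h : (U q).Dom then val ((U q).get h) else 0) := by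
    intro x hx
    obtain ⟨q, σ, h1, h2, _, h4⟩ := (mem_filter.mp hx).2
    refine mem_image.mpr ⟨q, mem_allQ _ _ (by omega), ?_⟩
    obtain ⟨hd, he⟩ := h1
    rw [dif_pos hd, he, h4]
  have h2 := (card_le_card h1).trans card_image_le
  have h3 := card_allQ (n - d)
  by_cases hd : d ≤ n
  · calc _ ≤ 2 ^ (n - d) * 2 ^ d := Nat.mul_le_mul_right _ (by omega)
      _ = 2 ^ n := by rw [← pow_add]; congr 1; omega
  · rw [show n - d = 0 by omega] at h2 h3
    have : ((range (2 ^ n)).filter (fun x => UU U d n x)).card = 0 := by omega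
    rw [this]; simp

/-- Decoding of strings. -/
def dl (m : ℕ) : List Bool := (Encodable.decode (α := List Bool) m).getD []

/-- Stage approximation of the machine. -/
def ev (c : Nat.Partrec.Code) (t m : ℕ) : ℕ := Encodable.encode (Nat.Partrec.Code.evaln t c m)

/-- Stage approximation of the compressible strings. -/
def AA (c : Nat.Partrec.Code) (d t n x : ℕ) : Prop :=
  ∃ m, m < t ∧ ((dl m).length + d < n ∧ 0 < ev c t m ∧ (dl (ev c t m - 1)).length = n ∧
    val (dl (ev c t m - 1)) = x)

theorem AA_sound (U : List Bool →. List Bool) (c : Nat.Partrec.Code)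
    (hc : c.eval = fun n => Part.bind (Encodable.decode (α := List Bool) n)
      (fun a => (U a).map Encodable.encode)) (d t n x : ℕ) (h : AA c d t n x) : UU U d n x := by
  obtain ⟨m, _, h1, h2, h3, h4⟩ := h
  unfold ev at h2 h3 h4
  cases he : Nat.Partrec.Code.evaln t c m with
  | none => rw [he] at h2; simp at h2
  | some z =>
    rw [he] at h3 h4
    simp only [Encodable.encode_some, Encodable.encode_nat, Nat.succ_eq_add_one,
      Nat.add_sub_cancel] at h3 h4
    have h5 : z ∈ c.eval m := Nat.Partrec.Code.evaln_sound (by rw [he]; rfl)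
    rw [hc] at h5
    simp only [Part.mem_bind_iff, Part.mem_ofOption, Part.mem_map_iff] at h5
    obtain ⟨q, hq, σ, hσ, rfl⟩ := h5
    have e1 : dl m = q := by
      unfold dl
      rw [Option.mem_def.mp hq]; rfl
    have e2 : dl (Encodable.encode σ) = σ := by simp [dl]
    rw [e1] at h1
    rw [e2] at h3 h4
    exact ⟨q, σ, hσ, h1, h3, h4⟩

theorem AA_complete (U : List Bool →. List Bool) (c : Nat.Partrec.Code)
    (hc : c.eval = fun n => Part.bind (Encodable.decode (α := List Bool) n)
      (fun a => (U a).map Encodable.encode)) (d n x : ℕ) (h : UU U d n x) :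
    ∀ᶠ t in Filter.atTop, AA c d t n x := by
  obtain ⟨q, σ, h1, h2, h3, h4⟩ := h
  have h5 : Encodable.encode σ ∈ c.eval (Encodable.encode q) := by
    rw [hc]
    simp only [Encodable.encodek, Part.mem_bind_iff, Part.mem_ofOption, Part.mem_map_iff]
    exact ⟨q, rfl, σ, h1, rfl⟩
  obtain ⟨t0, ht0⟩ := Nat.Partrec.Code.evaln_complete.mp h5
  filter_upwards [Filter.eventually_ge_atTop t0, Filter.eventually_gt_atTop (Encodable.encode q)]
    with t ht1 ht2
  have h6 := Option.mem_def.mp (Nat.Partrec.Code.evaln_mono ht1 ht0)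
  have e1 : ev c t (Encodable.encode q) = Encodable.encode σ + 1 := by
    unfold ev
    rw [h6]; simp
  have e2 : ∀ τ : List Bool, dl (Encodable.encode τ) = τ := fun τ => by simp [dl]
  refine ⟨Encodable.encode q, ht2, ?_⟩
  rw [e1, Nat.add_sub_cancel, e2, e2]
  exact ⟨h2, Nat.succ_pos _, h3, h4⟩

end Pool.Agent.H421Z.Kol
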