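import Pool.Agent.H421Z.Kol.Rec

set_option autoImplicit false

namespace Pool.Agent.H421Z.Kol

open Finset

theorem sq_good (U : ℕ → ℕ → Prop) (A : ℕ → ℕ → ℕ → Prop) (hs : ∀ t n x, A t n x → U n x)
    (hev : ∀ n x, U n x → ∀ᶠ t in Filter.atTop, A t n x) (d : ℕ) (h0 : ∀ n, Inv U d 0 n) (j : ℕ) :
    (Bd (sq (Val A d) j) ∧ ∀ n, Inv U d (sq (Val A d) j) n) ∧
      ∃ c, ∀ b, Val A d (sq (Val A d) j) c b := by
  have hex : ∀ p, (Bd p ∧ ∀ n, Inv U d p n) → ∃ c, ∀ b, Val A d p c b := by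
    intro p hp
    obtain ⟨c, hc⟩ := next_exists U d p hp.1 hp.2
    exact ⟨c, (val_iff U A hs hev d p c).mpr hc⟩
  induction j with
  | zero => exact ⟨⟨bd_zero, h0⟩, hex _ ⟨bd_zero, h0⟩⟩
  | succ j ih =>
    have h1 : ∀ b, Val A d (sq (Val A d) j) (sq (Val A d) (j + 1)) b := Nat.sInf_mem ih.2
    obtain ⟨h2, _, h4⟩ := (val_iff U A hs hev d _ _).mp h1
    have h5 : Bd (sq (Val A d) (j + 1)) := fun x hx => (h2.2 x hx).2
    exact ⟨⟨h5, h4⟩, hex _ ⟨h5, h4⟩⟩

theorem RP_iff (c : Nat.Partrec.Code)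
    (hex : ∀ d j, ∃ z, ∀ b, Val (AA c d) d (sq (Val (AA c d) d) j) z b) (k : ℕ) (σ : List Bool) :
    (∃ a, ∀ b, RP c k σ a b) ↔ ∃ e i, Out (sq (Val (AA c (k + e + 4)) (k + e + 4)) i)
      (sq (Val (AA c (k + e + 4)) (k + e + 4)) (i + 1)) σ.length (val σ) := by
  constructor
  · rintro ⟨a, ha⟩
    obtain ⟨i, hi, ho⟩ := (ha 0).2
    refine ⟨a.unpair.1, i, ?_⟩
    have h1 := chk_sound _ _ _ (fun b => (ha b).1) i hi.le
    have h2 := chk_sound _ _ _ (fun b => (ha b).1) (i + 1) hi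
    rw [List.getD_cons_succ] at h2
    rw [← h1, ← h2]
    exact ho
  · rintro ⟨e, i, ho⟩
    obtain ⟨h, T, hl, hc⟩ := chk_complete _ (hex (k + e + 4)) (i + 1)
    refine ⟨Nat.pair e (Nat.pair T (Encodable.encode h)), fun b => ?_⟩
    unfold RP
    simp only [Nat.unpair_pair, Denumerable.ofNat_encode]
    refine ⟨hc b, i, by omega, ?_⟩
    have h1 := chk_sound _ _ _ hc i (by omega)
    have h2 := chk_sound _ _ _ hc (i + 1) (by omega)
    rw [List.getD_cons_succ] at h2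
    rw [h1, h2]
    exact ho

theorem main (U : List Bool →. List Bool) (hU : Partrec U) :
    ∃ R : ℕ × List Bool × ℕ × ℕ → Bool, Computable R ∧
      (∀ k : ℕ, ∀ S : Finset (List Bool),
        (∀ σ ∈ S, ∃ a : ℕ, ∀ b : ℕ, R (k, σ, a, b) = true) →
        ∑ σ ∈ S, ((1:ℝ)/2) ^ σ.length ≤ ((1:ℝ)/2) ^ k) ∧
      ∀ X Y : ℕ → Bool, (∀ d, ∃ N, ∀ n, N ≤ n → UU U d n (pre X n) ∨ UU U d n (pre Y n)) →
        (∀ k : ℕ, ∃ n : ℕ, ∃ a : ℕ, ∀ b : ℕ,
          R (k, List.ofFn (fun i : Fin n => X i), a, b) = true) ∨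
        (∀ k : ℕ, ∃ n : ℕ, ∃ a : ℕ, ∀ b : ℕ,
          R (k, List.ofFn (fun i : Fin n => Y i), a, b) = true) := by
  classical
  obtain ⟨c, hc⟩ := Nat.Partrec.Code.exists_code.mp hU
  have hgood := fun d j => sq_good (UU U d) (AA c d) (AA_sound U c hc d) (AA_complete U c hc d) d
    (inv_zero _ d (UU_card U d)) j
  set q : ℕ → ℕ → ℕ := fun d => sq (Val (AA c d) d) with hq
  have hstep : ∀ d j, Mono (q d j) (q d (j + 1)) ∧ Cover (UU U d) (q d j) (q d (j + 1)) ∧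
      ∀ n, Inv (UU U d) d (q d (j + 1)) n := fun d j =>
    (val_iff (UU U d) (AA c d) (AA_sound U c hc d) (AA_complete U c hc d) d _ _).mp
      (Nat.sInf_mem (hgood d j).2)
  have hiff := RP_iff c (fun d j => (hgood d j).2)
  refine ⟨fun a => decide (RP c a.1 a.2.1 a.2.2.1 a.2.2.2), (pp_RP c).decide.to_comp, ?_, ?_⟩
  · intro k S hS
    simp only [decide_eq_true_eq] at hS
    apply union_bound' (fun σ : List Bool => ((1 : ℝ) / 2) ^ σ.length)
      (fun e σ => ∃ i, Out (q (k + e + 4) i) (q (k + e + 4) (i + 1)) σ.length (val σ))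
      (fun e => ((1 : ℝ) / 2) ^ (k + e + 1)) _ _ _ S (fun σ hσ => (hiff k σ).mp (hS σ hσ))
    · intro e S' hS'
      have h1 := seq_weight (UU U (k + e + 4)) (k + e + 4) (q (k + e + 4))
        (fun j => (hstep _ j).1) (fun j => (hgood _ j).1.1) (fun j => (hgood _ j).1.2)
        (S'.image (fun σ => (σ.length, val σ))) (by
          intro s hs
          obtain ⟨σ, hσ, rfl⟩ := mem_image.mp hs
          exact hS' σ hσ)
      rw [sum_image (fun σ _ τ _ h => val_inj σ τ (congrArg Prod.fst h) (congrArg Prod.snd h))] at h1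
      refine h1.trans ?_
      rw [one_div_pow, show k + e + 4 = (k + e + 1) + 3 by ring, pow_add,
        div_le_div_iff₀ (by positivity) (by positivity)]
      have : (0 : ℝ) < 2 ^ (k + e + 1) := by positivity
      nlinarith
    · intro E
      have : ∑ e ∈ range E, ((1 : ℝ) / 2) ^ (k + e + 1) = (1 / 2) ^ k - (1 / 2) ^ (k + E) := by
        induction E with
        | zero => simp
        | succ E ih => rw [sum_range_succ, ih]; ring
      rw [this]
      have : (0 : ℝ) ≤ (1 / 2) ^ (k + E) := by positivity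
      linarith
  · intro X Y hXY
    have key : ∀ (Z : ℕ → Bool) (k d : ℕ), k + 4 ≤ d →
        (∃ i n, Out (q d i) (q d (i + 1)) n (pre Z n)) → ∃ n a : ℕ, ∀ b : ℕ,
          decide (RP c k (List.ofFn (fun i : Fin n => Z i)) a b) = true := by
      rintro Z k d hd ⟨i, n, ho⟩
      refine ⟨n, ?_⟩
      simp only [decide_eq_true_eq]
      rw [hiff]
      refine ⟨d - k - 4, i, ?_⟩
      rw [show k + (d - k - 4) + 4 = d by omega, List.length_ofFn]
      exact ho
    by_contra hcon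
    rw [not_or] at hcon
    obtain ⟨h1, h2⟩ := hcon
    rw [not_forall] at h1 h2
    obtain ⟨k1, h1⟩ := h1
    obtain ⟨k2, h2⟩ := h2
    obtain ⟨N, hN⟩ := hXY (k1 + k2 + 4)
    rcases seq_cover (UU U (k1 + k2 + 4)) (q (k1 + k2 + 4)) rfl (fun j => (hstep _ j).1)
      (fun j => (hstep _ j).2.1) (pre X) (pre Y) (pre_lt X) (pre_div X) (pre_lt Y) (pre_div Y)
      N hN with h | h
    · exact h1 (key X k1 _ (by omega) h)
    · exact h2 (key Y k2 _ (by omega) h)

end Pool.Agent.H421Z.Kol
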