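import Mathlib

set_option autoImplicit false

namespace Pool.Agent.H421Z.Kol

open Finset

/-- Load of a weighting of the ordered pairs. -/
noncomputable def load (I : Finset ℕ) (l : ℕ × ℕ → ℝ) (x : ℕ) : ℝ := ∑ y ∈ I, (l (x, y) + l (y, x))

theorem load_sum (I : Finset ℕ) (l : ℕ × ℕ → ℝ) (g : ℕ → ℝ) :
    ∑ x ∈ I, g x * load I l x = ∑ x ∈ I, ∑ y ∈ I, l (x, y) * (g x + g y) := by
  unfold load
  simp only [mul_sum, mul_add, sum_add_distrib]
  congr 1
  · apply sum_congr rfl; intro x _; apply sum_congr rfl; intro y _; ring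
  · rw [sum_comm]
    apply sum_congr rfl; intro x _; apply sum_congr rfl; intro y _; ring

theorem load_pert (I : Finset ℕ) (l : ℕ × ℕ → ℝ) (a b : ℕ) (ha : a ∈ I) (hb : b ∈ I) (τ : ℝ) (x : ℕ) :
    load I (fun p => l p + if p = (a, b) then τ else 0) x =
      load I l x + τ * ((if x = a then 1 else 0) + (if x = b then 1 else 0)) := by
  unfold load
  have h1 : ∑ y ∈ I, (if (x, y) = (a, b) then τ else 0) = τ * (if x = a then 1 else 0) := by
    by_cases hx : x = a
    · simp [hx, hb]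
    · simp [hx]
  have h2 : ∑ y ∈ I, (if (y, x) = (a, b) then τ else 0) = τ * (if x = b then 1 else 0) := by
    by_cases hx : x = b
    · simp [hx, ha]
    · simp [hx]
  rw [mul_add, ← h1, ← h2, ← sum_add_distrib, ← sum_add_distrib]
  apply sum_congr rfl
  intro y _
  ring

theorem opt (I : Finset ℕ) (E : ℕ → ℕ → Prop) (v : ℕ → ℝ) (h0 : ∀ x, 0 ≤ v x) (h2 : ∀ x, v x ≤ 2) :
    ∃ r : ℕ → ℝ, (∀ x, 0 ≤ r x) ∧ (∀ x ∈ I, v x + r x ≤ 2) ∧
      (∀ x ∈ I, ∀ y ∈ I, E x y → 2 ≤ (v x + r x) + (v y + r y)) ∧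
      (∑ x ∈ I, (v x + r x - 1) * r x ≤ 0) ∧
      (∀ g : ℕ → ℝ, (∀ x ∈ I, ∀ y ∈ I, E x y → 0 ≤ g x + g y) → 0 ≤ ∑ x ∈ I, g x * r x) := by
  classical
  set B : ℕ × ℕ → ℝ := fun p => if p.1 ∈ I ∧ p.2 ∈ I ∧ E p.1 p.2 then 3 else 0 with hB
  set K : Set (ℕ × ℕ → ℝ) := Set.pi Set.univ (fun p => Set.Icc 0 (B p)) with hK
  have hKc : IsCompact K := isCompact_univ_pi (fun p => isCompact_Icc)
  have hB0 : ∀ p, 0 ≤ B p := by
    intro p; simp only [hB]; split_ifs <;> norm_num
  have hKne : K.Nonempty := ⟨fun _ => 0, fun p _ => ⟨le_rfl, hB0 p⟩⟩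
  set F : (ℕ × ℕ → ℝ) → ℝ := fun l => ∑ x ∈ I, (v x + load I l x - 1) ^ 2 with hF
  have hFc : Continuous F := by
    simp only [hF, load]
    fun_prop
  obtain ⟨l, hl, hmin⟩ := hKc.exists_isMinOn hKne hFc.continuousOn
  have hl0 : ∀ p, 0 ≤ l p := fun p => (hl p (Set.mem_univ p)).1
  have hlB : ∀ p, l p ≤ B p := fun p => (hl p (Set.mem_univ p)).2
  have hr0 : ∀ x, 0 ≤ load I l x := fun x => sum_nonneg (fun y _ => add_nonneg (hl0 _) (hl0 _))
  have hpert : ∀ a ∈ I, ∀ b ∈ I, ∀ τ : ℝ, 0 ≤ l (a, b) + τ → l (a, b) + τ ≤ B (a, b) →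
      0 ≤ 2 * τ * ((v a + load I l a) + (v b + load I l b) - 2) + 4 * τ ^ 2 := by
    intro a ha b hb τ t0 t1
    have hmem : (fun p => l p + if p = (a, b) then τ else 0) ∈ K := by
      intro p _
      by_cases hp : p = (a, b)
      · simp only [hp, if_true]; exact ⟨t0, t1⟩
      · simp only [hp, if_false, add_zero]; exact ⟨hl0 p, hlB p⟩
    have h1 : F l ≤ F (fun p => l p + if p = (a, b) then τ else 0) := hmin hmem
    simp only [hF, load_pert I l a b ha hb] at h1
    set δ : ℕ → ℝ := fun x => (if x = a then 1 else 0) + (if x = b then 1 else 0) with hδ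
    have e1 : ∑ x ∈ I, (v x + load I l x - 1) * δ x =
        (v a + load I l a) + (v b + load I l b) - 2 := by
      simp only [hδ, mul_add, sum_add_distrib, mul_ite, mul_one, mul_zero, sum_ite_eq', ha, hb,
        if_true]
      ring
    have e2 : ∑ x ∈ I, δ x ^ 2 ≤ 4 := by
      have e3 : ∑ x ∈ I, δ x = 2 := by
        simp only [hδ, sum_add_distrib, sum_ite_eq', ha, hb, if_true]
        norm_num
      have e4 : ∑ x ∈ I, δ x ^ 2 ≤ ∑ x ∈ I, 2 * δ x := by
        apply sum_le_sum
        intro x _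
        simp only [hδ]
        split_ifs <;> norm_num
      rw [← mul_sum, e3] at e4
      linarith
    have e5 : ∑ x ∈ I, (v x + (load I l x + τ * δ x) - 1) ^ 2 =
        ∑ x ∈ I, (v x + load I l x - 1) ^ 2 + 2 * τ * ∑ x ∈ I, (v x + load I l x - 1) * δ x +
          τ ^ 2 * ∑ x ∈ I, δ x ^ 2 := by
      rw [mul_sum, mul_sum, ← sum_add_distrib, ← sum_add_distrib]
      apply sum_congr rfl
      intro x _
      ring
    rw [e5, e1] at h1
    nlinarith [sq_nonneg τ]
  have hneg : ∀ a ∈ I, ∀ b ∈ I, 0 < l (a, b) → (v a + load I l a) + (v b + load I l b) ≤ 2 := by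
    intro a ha b hb hpos
    by_contra hcon
    set S := (v a + load I l a) + (v b + load I l b) - 2 with hS
    have hSpos : 0 < S := by linarith [not_le.mp hcon]
    set m := min (l (a, b)) (S / 4) with hm
    have hm0 : 0 < m := lt_min hpos (by linarith)
    have hm1 : m ≤ l (a, b) := min_le_left _ _
    have hm2 : m ≤ S / 4 := min_le_right _ _
    have := hpert a ha b hb (-m) (by linarith) (by linarith [hlB (a, b)])
    nlinarith
  have hle : ∀ a ∈ I, ∀ b ∈ I, l (a, b) ≤ load I l a := by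
    intro a _ b hb
    have := single_le_sum (f := fun y => l (a, y) + l (y, a))
      (fun y _ => add_nonneg (hl0 _) (hl0 _)) hb
    unfold load
    linarith [hl0 (b, a)]
  have hpos : ∀ a ∈ I, ∀ b ∈ I, E a b → 2 ≤ (v a + load I l a) + (v b + load I l b) := by
    intro a ha b hb hE
    have hB3 : B (a, b) = 3 := by simp only [hB, ha, hb, hE, and_self, if_true]
    have hl2 : l (a, b) ≤ 2 := by
      rcases (hl0 (a, b)).lt_or_eq with h | h
      · have := hneg a ha b hb h
        linarith [hle a ha b hb, h0 a, h0 b, hr0 b]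
      · linarith
    by_contra hcon
    set S := (v a + load I l a) + (v b + load I l b) - 2 with hS
    have hSneg : S < 0 := by linarith [not_le.mp hcon]
    set m := min 1 (-S / 4) with hm
    have hm0 : 0 < m := lt_min one_pos (by linarith)
    have hm1 : m ≤ 1 := min_le_left _ _
    have hm2 : m ≤ -S / 4 := min_le_right _ _
    have := hpert a ha b hb m (by linarith [hl0 (a, b)]) (by linarith)
    nlinarith
  refine ⟨load I l, hr0, ?_, hpos, ?_, ?_⟩
  · intro x hx
    by_cases hex : ∃ y ∈ I, 0 < l (x, y) + l (y, x)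
    · obtain ⟨y, hy, hp⟩ := hex
      by_cases h1 : 0 < l (x, y)
      · linarith [hneg x hx y hy h1, h0 y, hr0 y]
      · have h3 : 0 < l (y, x) := by linarith [not_lt.mp h1]
        linarith [hneg y hy x hx h3, h0 y, hr0 y]
    · push Not at hex
      have : load I l x ≤ 0 := sum_nonpos hex
      linarith [h2 x]
  · rw [load_sum I l (fun x => v x + load I l x - 1)]
    apply sum_nonpos
    intro x hx
    apply sum_nonpos
    intro y hy
    rcases (hl0 (x, y)).lt_or_eq with h | h
    · have := hneg x hx y hy h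
      nlinarith
    · rw [← h]; simp
  · intro g hg
    rw [load_sum]
    apply sum_nonneg
    intro x hx
    apply sum_nonneg
    intro y hy
    by_cases hE : E x y
    · exact mul_nonneg (hl0 _) (hg x hx y hy hE)
    · have : B (x, y) = 0 := by simp only [hB, hE, and_false, if_false]
      have h3 : l (x, y) = 0 := le_antisymm (this ▸ hlB (x, y)) (hl0 _)
      rw [h3]; simp

end Pool.Agent.H421Z.Kol
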