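import Pool.Agent.H421Z.Kol.Code

set_option autoImplicit false

namespace Pool.Agent.H421Z.Kol

open Finset Pool.Agent.H421Z.Prim

variable {α : Type} [Primcodable α]

@[fun_prop] theorem pr_lv {f : α → ℕ} (hf : Primrec f) : Primrec (fun a => lv (f a)) := by
  unfold lv; fun_prop

@[fun_prop] theorem pr_sv {f g : α → ℕ} (hf : Primrec f) (hg : Primrec g) :
    Primrec (fun a => sv (f a) (g a)) := by
  unfold sv; fun_prop

@[fun_prop] theorem pr_dl {f : α → ℕ} (hf : Primrec f) : Primrec (fun a => dl (f a)) :=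
  Primrec.option_getD.comp (Primrec.decode.comp hf) (Primrec.const [])

theorem pr_val0 : Primrec val :=
  Primrec.list_foldl (f := fun σ : List Bool => σ) (g := fun _ => 0)
    (h := fun _ p => 2 * p.1 + cond p.2 1 0) Primrec.id (Primrec.const 0)
    (Primrec.nat_add.comp (Primrec.nat_mul.comp (Primrec.const 2) (Primrec.fst.comp Primrec.snd))
      (Primrec.cond (Primrec.snd.comp Primrec.snd) (Primrec.const 1) (Primrec.const 0))).to₂

@[fun_prop] theorem pr_val {f : α → List Bool} (hf : Primrec f) : Primrec (fun a => val (f a)) :=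
  pr_val0.comp hf

@[fun_prop] theorem pr_ev (c : Nat.Partrec.Code) {f g : α → ℕ} (hf : Primrec f) (hg : Primrec g) :
    Primrec (fun a => ev c (f a) (g a)) :=
  Primrec.encode.comp (Nat.Partrec.Code.primrec_evaln.comp ((hf.pair (Primrec.const c)).pair hg))

theorem pp_AA0 (c : Nat.Partrec.Code) :
    PrimrecPred (fun a : ℕ × ℕ × ℕ × ℕ => AA c a.1 a.2.1 a.2.2.1 a.2.2.2) := by
  unfold AA
  refine pp_bex (R := fun m (a : ℕ × ℕ × ℕ × ℕ) => (dl m).length + a.1 < a.2.2.1 ∧ 0 < ev c a.2.1 m ∧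
    (dl (ev c a.2.1 m - 1)).length = a.2.2.1 ∧ val (dl (ev c a.2.1 m - 1)) = a.2.2.2) (by fun_prop) ?_
  exact pp_and (pp_lt (by fun_prop) (by fun_prop)) (pp_and (pp_lt (by fun_prop) (by fun_prop))
    (pp_and (pp_eq (by fun_prop) (by fun_prop)) (pp_eq (by fun_prop) (by fun_prop))))

theorem pp_AA (c : Nat.Partrec.Code) {d t n x : α → ℕ} (hd : Primrec d) (ht : Primrec t)
    (hn : Primrec n) (hx : Primrec x) : PrimrecPred (fun a => AA c (d a) (t a) (n a) (x a)) :=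
  (pp_AA0 c).comp (f := fun a => (d a, t a, n a, x a)) (by fun_prop)

theorem pp_Edge0 (c : Nat.Partrec.Code) :
    PrimrecPred (fun a : (ℕ × ℕ) × (ℕ × ℕ) × ℕ × ℕ =>
      Edge (AA c a.1.1 a.1.2) a.2.1.1 a.2.1.2 a.2.2.1 a.2.2.2) := by
  unfold Edge
  refine pp_ball (R := fun m (a : (ℕ × ℕ) × (ℕ × ℕ) × ℕ × ℕ) => a.2.1.1 < m →
    AA c a.1.1 a.1.2 m (a.2.2.1 / 2 ^ (a.2.1.2 - m)) ∨
      AA c a.1.1 a.1.2 m (a.2.2.2 / 2 ^ (a.2.1.2 - m))) (by fun_prop) ?_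
  exact pp_imp (pp_lt (by fun_prop) (by fun_prop))
    (pp_or (pp_AA c (by fun_prop) (by fun_prop) (by fun_prop) (by fun_prop))
      (pp_AA c (by fun_prop) (by fun_prop) (by fun_prop) (by fun_prop)))

theorem pp_Edge (c : Nat.Partrec.Code) {d t k n x y : α → ℕ} (hd : Primrec d) (ht : Primrec t)
    (hk : Primrec k) (hn : Primrec n) (hx : Primrec x) (hy : Primrec y) :
    PrimrecPred (fun a => Edge (AA c (d a) (t a)) (k a) (n a) (x a) (y a)) :=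
  (pp_Edge0 c).comp (f := fun a => ((d a, t a), (k a, n a), x a, y a)) (by fun_prop)

theorem pp_Mono0 : PrimrecPred (fun a : ℕ × ℕ => Mono a.1 a.2) := by
  unfold Mono
  refine pp_and (pp_lt (by fun_prop) (by fun_prop)) ?_
  refine pp_ball (R := fun x (a : ℕ × ℕ) =>
    sv a.1 (x / 2 ^ (lv a.2 - lv a.1)) * 2 ^ (lv a.2 - lv a.1) ≤ sv a.2 x ∧
      sv a.2 x ≤ 2 * 2 ^ lv a.2) (by fun_prop) ?_
  exact pp_and (pp_le (by fun_prop) (by fun_prop)) (pp_le (by fun_prop) (by fun_prop))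

theorem pp_Cover0 (c : Nat.Partrec.Code) :
    PrimrecPred (fun a : (ℕ × ℕ) × ℕ × ℕ => Cover (AA c a.1.1 a.1.2) a.2.1 a.2.2) := by
  unfold Cover
  refine pp_ball (R := fun x (a : (ℕ × ℕ) × ℕ × ℕ) => ∀ y, y < 2 ^ lv a.2.2 →
    Edge (AA c a.1.1 a.1.2) (lv a.2.1) (lv a.2.2) x y →
      2 ^ lv a.2.2 ≤ sv a.2.2 x ∨ 2 ^ lv a.2.2 ≤ sv a.2.2 y) (by fun_prop) ?_
  refine pp_ball (f := fun p : ℕ × (ℕ × ℕ) × ℕ × ℕ => 2 ^ lv p.2.2.2)
    (R := fun y (p : ℕ × (ℕ × ℕ) × ℕ × ℕ) =>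
    Edge (AA c p.2.1.1 p.2.1.2) (lv p.2.2.1) (lv p.2.2.2) p.1 y →
      2 ^ lv p.2.2.2 ≤ sv p.2.2.2 p.1 ∨ 2 ^ lv p.2.2.2 ≤ sv p.2.2.2 y) (by fun_prop) ?_
  exact pp_imp (pp_Edge c (by fun_prop) (by fun_prop) (by fun_prop) (by fun_prop) (by fun_prop)
    (by fun_prop)) (pp_or (pp_le (by fun_prop) (by fun_prop)) (pp_le (by fun_prop) (by fun_prop)))

theorem pp_Inv0 (c : Nat.Partrec.Code) :
    PrimrecPred (fun a : (ℕ × ℕ) × ℕ × ℕ => Inv (AA c a.1.1 a.1.2) a.1.1 a.2.1 a.2.2) := by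
  classical
  unfold Inv
  refine pp_imp (pp_lt (by fun_prop) (by fun_prop)) (pp_le ?_ (by fun_prop))
  refine pr_add (pr_mul ?_ (by fun_prop)) (by fun_prop)
  refine pr_sum (f := fun a : (ℕ × ℕ) × ℕ × ℕ => 2 ^ a.2.2)
    (g := fun x (a : (ℕ × ℕ) × ℕ × ℕ) => sv a.2.1 (x / 2 ^ (a.2.2 - lv a.2.1)) +
      if AA c a.1.1 a.1.2 a.2.2 x then 4 * 2 ^ lv a.2.1 - 2 * sv a.2.1 (x / 2 ^ (a.2.2 - lv a.2.1))
      else 0) (by fun_prop) ?_
  refine pr_add (by fun_prop) ?_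
  exact Primrec.ite (pp_AA c (by fun_prop) (by fun_prop) (by fun_prop) (by fun_prop))
    (by fun_prop) (by fun_prop)

theorem pp_Val (c : Nat.Partrec.Code) {d p q b : α → ℕ} (hd : Primrec d) (hp : Primrec p)
    (hq : Primrec q) (hb : Primrec b) :
    PrimrecPred (fun a => Val (AA c (d a)) (d a) (p a) (q a) (b a)) := by
  unfold Val
  refine pp_and (pp_Mono0.comp (f := fun a => (p a, q a)) (by fun_prop)) (pp_and ?_ ?_)
  · exact (pp_Cover0 c).comp (f := fun a => ((d a, (b a).unpair.2), p a, q a)) (by fun_prop)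
  · exact (pp_Inv0 c).comp (f := fun a => ((d a, (b a).unpair.2), q a, (b a).unpair.1)) (by fun_prop)

theorem pp_Out {p q n x : α → ℕ} (hp : Primrec p) (hq : Primrec q) (hn : Primrec n)
    (hx : Primrec x) : PrimrecPred (fun a => Out (p a) (q a) (n a) (x a)) := by
  unfold Out
  exact pp_and (pp_eq (by fun_prop) (by fun_prop)) (pp_and (pp_lt (by fun_prop) (by fun_prop))
    (pp_and (pp_le (by fun_prop) (by fun_prop)) (pp_lt (by fun_prop) (by fun_prop))))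

theorem pp_Chk0 (c : Nat.Partrec.Code) :
    PrimrecPred (fun a : (ℕ × List ℕ) × ℕ × ℕ =>
      Chk (Val (AA c a.1.1) a.1.1) a.1.2 a.2.1 a.2.2) := by
  unfold Chk
  refine pp_ball (R := fun i (a : (ℕ × List ℕ) × ℕ × ℕ) =>
    Val (AA c a.1.1) a.1.1 ((0 :: a.1.2).getD i 0) (a.1.2.getD i 0) a.2.2 ∧
    ∀ z, z < a.1.2.getD i 0 → ∃ t, t < a.2.1 ∧
      ¬ Val (AA c a.1.1) a.1.1 ((0 :: a.1.2).getD i 0) z t) (by fun_prop) ?_
  refine pp_and (pp_Val c (by fun_prop) (by fun_prop) (by fun_prop) (by fun_prop)) ?_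
  refine pp_ball (f := fun p : ℕ × (ℕ × List ℕ) × ℕ × ℕ => p.2.1.2.getD p.1 0)
    (R := fun z (p : ℕ × (ℕ × List ℕ) × ℕ × ℕ) => ∃ t, t < p.2.2.1 ∧
      ¬ Val (AA c p.2.1.1) p.2.1.1 ((0 :: p.2.1.2).getD p.1 0) z t) (by fun_prop) ?_
  refine pp_bex (f := fun p : ℕ × ℕ × (ℕ × List ℕ) × ℕ × ℕ => p.2.2.2.1)
    (R := fun t (p : ℕ × ℕ × (ℕ × List ℕ) × ℕ × ℕ) =>
      ¬ Val (AA c p.2.2.1.1) p.2.2.1.1 ((0 :: p.2.2.1.2).getD p.2.1 0) p.1 t) (by fun_prop) ?_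
  exact pp_not (pp_Val c (by fun_prop) (by fun_prop) (by fun_prop) (by fun_prop))

/-- The matrix of the test. -/
def RP (c : Nat.Partrec.Code) (k : ℕ) (σ : List Bool) (a b : ℕ) : Prop :=
  Chk (Val (AA c (k + a.unpair.1 + 4)) (k + a.unpair.1 + 4))
      (Denumerable.ofNat (List ℕ) a.unpair.2.unpair.2) a.unpair.2.unpair.1 b ∧
    ∃ i, i < (Denumerable.ofNat (List ℕ) a.unpair.2.unpair.2).length ∧
      Out ((0 :: Denumerable.ofNat (List ℕ) a.unpair.2.unpair.2).getD i 0)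
        ((Denumerable.ofNat (List ℕ) a.unpair.2.unpair.2).getD i 0) σ.length (val σ)

theorem pp_RP (c : Nat.Partrec.Code) :
    PrimrecPred (fun a : ℕ × List Bool × ℕ × ℕ => RP c a.1 a.2.1 a.2.2.1 a.2.2.2) := by
  unfold RP
  refine pp_and ((pp_Chk0 c).comp (f := fun a : ℕ × List Bool × ℕ × ℕ =>
    ((a.1 + a.2.2.1.unpair.1 + 4, Denumerable.ofNat (List ℕ) a.2.2.1.unpair.2.unpair.2),
      a.2.2.1.unpair.2.unpair.1, a.2.2.2)) (by fun_prop)) ?_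
  refine pp_bex (R := fun i (a : ℕ × List Bool × ℕ × ℕ) =>
    Out ((0 :: Denumerable.ofNat (List ℕ) a.2.2.1.unpair.2.unpair.2).getD i 0)
      ((Denumerable.ofNat (List ℕ) a.2.2.1.unpair.2.unpair.2).getD i 0) a.2.1.length (val a.2.1))
    (by fun_prop) ?_
  exact pp_Out (by fun_prop) (by fun_prop) (by fun_prop) (by fun_prop)

end Pool.Agent.H421Z.Kol
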