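import Pool.Agent.H421Z.Kol.Step

set_option autoImplicit false

namespace Pool.Agent.H421Z.Kol

open Finset

/-- Level of a state. -/
def lv (c : ℕ) : ℕ := c.unpair.1

/-- Values of a state. -/
def sv (c x : ℕ) : ℕ := (Denumerable.ofNat (List ℕ) c.unpair.2).getD x 0

theorem exists_state (k : ℕ) (s : ℕ → ℕ) : ∃ c, lv c = k ∧ ∀ x, x < 2 ^ k → sv c x = s x := by
  refine ⟨Nat.pair k (Encodable.encode ((List.range (2 ^ k)).map s)), by simp [lv], ?_⟩
  intro x hx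
  simp only [sv, Nat.unpair_pair, Denumerable.ofNat_encode]
  rw [List.getD_eq_getElem _ _ (by simpa using hx)]
  simp

theorem lv_zero : lv 0 = 0 := by simp [lv]

theorem sv_zero (x : ℕ) : sv 0 x = 0 := by simp [sv]

/-- The next state dominates the previous one. -/
def Mono (p c : ℕ) : Prop :=
  lv p < lv c ∧ ∀ x, x < 2 ^ lv c →
    sv p (x / 2 ^ (lv c - lv p)) * 2 ^ (lv c - lv p) ≤ sv c x ∧ sv c x ≤ 2 * 2 ^ lv c

/-- The next state covers all edges. -/
def Cover (A : ℕ → ℕ → Prop) (p c : ℕ) : Prop :=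
  ∀ x, x < 2 ^ lv c → ∀ y, y < 2 ^ lv c → Edge A (lv p) (lv c) x y →
    2 ^ lv c ≤ sv c x ∨ 2 ^ lv c ≤ sv c y

open Classical in
/-- The invariant. -/
def Inv (A : ℕ → ℕ → Prop) (d c n : ℕ) : Prop :=
  lv c < n → (∑ x ∈ range (2 ^ n), (sv c (x / 2 ^ (n - lv c)) +
    if A n x then 4 * 2 ^ lv c - 2 * sv c (x / 2 ^ (n - lv c)) else 0)) * 2 ^ d + 2 ^ n ≤
      5 * 2 ^ lv c * 2 ^ n

/-- Bounded states. -/
def Bd (c : ℕ) : Prop := ∀ x, x < 2 ^ lv c → sv c x ≤ 2 * 2 ^ lv c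

open Classical in
theorem inv_iff (A : ℕ → ℕ → Prop) (d c n : ℕ) (hB : Bd c) (hn : lv c < n) :
    Inv A d c n ↔ avg n (fun x => ((sv c (x / 2 ^ (n - lv c)) : ℝ) / 2 ^ lv c) *
      (if A n x then -1 else 1) + (if A n x then 4 else 0)) ≤ (5 - 1 / 2 ^ lv c) / 2 ^ d := by
  unfold Inv avg
  have e : ∑ x ∈ range (2 ^ n), (((sv c (x / 2 ^ (n - lv c)) : ℝ) / 2 ^ lv c) *
      (if A n x then -1 else 1) + (if A n x then 4 else 0)) =
      ((∑ x ∈ range (2 ^ n), (sv c (x / 2 ^ (n - lv c)) +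
        if A n x then 4 * 2 ^ lv c - 2 * sv c (x / 2 ^ (n - lv c)) else 0) : ℕ) : ℝ) / 2 ^ lv c := by
    rw [Nat.cast_sum, sum_div]
    apply sum_congr rfl
    intro x hx
    have hb := hB _ (div_lt_pow hn.le (mem_range.mp hx))
    split_ifs
    · rw [Nat.cast_add, Nat.cast_sub (by omega)]
      push_cast
      field_simp
      ring
    · simp
  rw [e]
  set S := ∑ x ∈ range (2 ^ n), (sv c (x / 2 ^ (n - lv c)) +
        if A n x then 4 * 2 ^ lv c - 2 * sv c (x / 2 ^ (n - lv c)) else 0)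
  rw [div_div, div_le_div_iff₀ (by positivity) (by positivity)]
  have e2 : (5 - 1 / (2 : ℝ) ^ lv c) * (2 ^ lv c * 2 ^ n) = 5 * 2 ^ lv c * 2 ^ n - 2 ^ n := by
    field_simp
  rw [e2, le_sub_iff_add_le]
  constructor
  · intro h
    exact_mod_cast h hn
  · intro h _
    exact_mod_cast h

open Classical in
theorem inv_zero (U : ℕ → ℕ → Prop) (d : ℕ)
    (hU : ∀ n, ((range (2 ^ n)).filter (fun x => U n x)).card * 2 ^ d ≤ 2 ^ n) (n : ℕ) :
    Inv U d 0 n := by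
  intro _
  simp only [sv_zero, lv_zero, pow_zero, mul_one, mul_zero, Nat.sub_zero, zero_add]
  rw [← sum_filter, sum_const, smul_eq_mul]
  have := hU n
  nlinarith

theorem bd_zero : Bd 0 := by
  intro x _
  simp [sv_zero]

theorem next_exists (U : ℕ → ℕ → Prop) (d p : ℕ) (hB : Bd p) (hI : ∀ n, Inv U d p n) :
    ∃ c, Mono p c ∧ Cover U p c ∧ ∀ n, Inv U d c n := by
  classical
  set k := lv p with hk
  set u : ℕ → ℝ := fun x => min ((sv p x : ℝ) / 2 ^ k) 2 with hu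
  have hueq : ∀ x, x < 2 ^ k → u x = (sv p x : ℝ) / 2 ^ k := by
    intro x hx
    apply min_eq_left
    rw [div_le_iff₀ (by positivity)]
    exact_mod_cast hB x hx
  obtain ⟨k', hK, hkk, w, hw1, hw2, hw3, hw4⟩ := step U k (k + d + 2) u
    (fun x => le_min (by positivity) (by norm_num)) (fun x => min_le_right _ _)
    (1 / 2 ^ d * (1 / 2 ^ k) / 2) (by positivity)
  have hw0 : ∀ x, 0 ≤ w x := fun x => le_trans (le_min (by positivity) (by norm_num)) (hw1 x)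
  obtain ⟨c, hc1, hc2⟩ := exists_state k' (fun x => ⌈2 ^ k' * w x⌉₊)
  have hpk : (0 : ℝ) < 2 ^ k' := by positivity
  have hBc : Bd c := by
    intro x hx
    rw [hc1] at hx ⊢
    rw [hc2 x hx, Nat.ceil_le]
    push_cast
    nlinarith [hw2 x hx]
  refine ⟨c, ⟨by rw [hc1]; exact hkk, ?_⟩, ?_, ?_⟩
  · intro x hx
    refine ⟨?_, hBc x hx⟩
    rw [hc1] at hx ⊢
    rw [hc2 x hx, ← hk]
    have h1 := hw1 x
    rw [hueq _ (div_lt_pow hkk.le hx), div_le_iff₀ (by positivity)] at h1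
    have h2 : (2 : ℝ) ^ k' = 2 ^ k * 2 ^ (k' - k) := by
      rw [← pow_add]; congr 1; omega
    have h3 : ((sv p (x / 2 ^ (k' - k)) * 2 ^ (k' - k) : ℕ) : ℝ) ≤ 2 ^ k' * w x := by
      push_cast
      rw [h2]
      have : (0 : ℝ) < 2 ^ (k' - k) := by positivity
      nlinarith
    exact_mod_cast h3.trans (Nat.le_ceil _)
  · intro x hx y hy hE
    rw [hc1] at hx hy hE ⊢
    rw [hc2 x hx, hc2 y hy]
    have key : ∀ z, 1 ≤ w z → 2 ^ k' ≤ ⌈2 ^ k' * w z⌉₊ := by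
      intro z hz
      have : ((2 ^ k' : ℕ) : ℝ) ≤ 2 ^ k' * w z := by push_cast; nlinarith
      exact_mod_cast this.trans (Nat.le_ceil _)
    rcases hw3 x hx y hy hE with h | h
    · exact Or.inl (key x h)
    · exact Or.inr (key y h)
  · intro n
    by_cases hn : lv c < n
    swap
    · intro h; exact absurd h hn
    rw [inv_iff U d c n hBc hn]
    rw [hc1] at hn ⊢
    have h1 := (inv_iff U d p n hB (by omega)).mp (hI n)
    rw [← hk] at h1
    have h2 := hw4 n hn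
    have h3 : avg n (fun x => ((sv c (x / 2 ^ (n - k')) : ℝ) / 2 ^ k') *
        (if U n x then -1 else 1) + (if U n x then 4 else 0)) ≤
        avg n (fun x => ((((sv p (x / 2 ^ (n - k)) : ℝ) / 2 ^ k) *
          (if U n x then -1 else 1) + (if U n x then 4 else 0)) +
          (w (x / 2 ^ (n - k')) - u (x / 2 ^ (n - k))) * (if U n x then -1 else 1)) + 1 / 2 ^ k') := by
      apply avg_mono
      intro x hx
      rw [hc2 _ (div_lt_pow hn.le hx), hueq _ (div_lt_pow (by omega) hx)]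
      set z := w (x / 2 ^ (n - k')) with hz
      have a1 : z ≤ (⌈2 ^ k' * z⌉₊ : ℝ) / 2 ^ k' := by
        rw [le_div_iff₀ hpk, mul_comm]; exact Nat.le_ceil _
      have a2 : (⌈2 ^ k' * z⌉₊ : ℝ) / 2 ^ k' ≤ z + 1 / 2 ^ k' := by
        rw [div_le_iff₀ hpk]
        have := Nat.ceil_lt_add_one (mul_nonneg hpk.le (hw0 (x / 2 ^ (n - k'))))
        rw [← hz] at this
        have e : (z + 1 / 2 ^ k') * 2 ^ k' = 2 ^ k' * z + 1 := by field_simp
        linarith
      have a3 : (0 : ℝ) < 1 / 2 ^ k' := by positivity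
      split_ifs <;> linarith
    rw [avg_add n _ (fun _ => 1 / 2 ^ k'), avg_const, avg_add n _ (fun x =>
      (w (x / 2 ^ (n - k')) - u (x / 2 ^ (n - k))) * (if U n x then -1 else 1))] at h3
    have h4 : (1 : ℝ) / 2 ^ k' ≤ 1 / 2 ^ d * (1 / 2 ^ k) / 4 := by
      have e : (1 : ℝ) / 2 ^ d * (1 / 2 ^ k) / 4 = 1 / 2 ^ (k + d + 2) := by
        rw [pow_add, pow_add]; field_simp; norm_num
      rw [e]
      exact one_div_le_one_div_of_le (by positivity) (pow_le_pow_right₀ (by norm_num) hK)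
    have h5 : (1 : ℝ) / 2 ^ d ≤ 1 := by
      rw [div_le_one (by positivity)]; exact one_le_pow₀ (by norm_num)
    have h6 : (0 : ℝ) < 1 / 2 ^ k' := by positivity
    have e1 : ((5 : ℝ) - 1 / 2 ^ k') / 2 ^ d = 5 * (1 / 2 ^ d) - 1 / 2 ^ d * (1 / 2 ^ k') := by ring
    have e2 : ((5 : ℝ) - 1 / 2 ^ k) / 2 ^ d = 5 * (1 / 2 ^ d) - 1 / 2 ^ d * (1 / 2 ^ k) := by ring
    rw [e1]
    rw [e2] at h1
    have h7 : (1 : ℝ) / 2 ^ d * (1 / 2 ^ k') ≤ 1 / 2 ^ k' := by nlinarith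
    linarith

open Classical in
theorem weight (U : ℕ → ℕ → Prop) (d c : ℕ) (hB : Bd c) (hI : ∀ n, Inv U d c n) :
    avg (lv c) (fun x => if 2 ^ lv c ≤ sv c x then 1 else 0) ≤ 5 / 2 ^ d := by
  have h1 := (inv_iff U d c (lv c + 1) hB (Nat.lt_succ_self _)).mp (hI _)
  rw [← avg_lift (Nat.le_succ (lv c))]
  have h2 : ((5 : ℝ) - 1 / 2 ^ lv c) / 2 ^ d ≤ 5 / 2 ^ d := by
    apply div_le_div_of_nonneg_right _ (by positivity)
    have : (0 : ℝ) < 1 / 2 ^ lv c := by positivity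
    linarith
  refine le_trans (avg_mono ?_) (h1.trans h2)
  intro x hx
  have hb := hB _ (div_lt_pow (Nat.le_succ (lv c)) hx)
  set s := sv c (x / 2 ^ (lv c + 1 - lv c)) with hs
  have hp : (0 : ℝ) < 2 ^ lv c := by positivity
  have a1 : (s : ℝ) / 2 ^ lv c ≤ 2 := by
    rw [div_le_iff₀ hp]; exact_mod_cast hb
  have a2 : 0 ≤ (s : ℝ) / 2 ^ lv c := by positivity
  by_cases h : 2 ^ lv c ≤ s
  · have a3 : 1 ≤ (s : ℝ) / 2 ^ lv c := by
      rw [le_div_iff₀ hp, one_mul]; exact_mod_cast h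
    rw [if_pos h]
    split_ifs <;> linarith
  · rw [if_neg h]
    split_ifs <;> linarith

/-- The strings put into the test at a step. -/
def Out (p c n x : ℕ) : Prop :=
  n = lv c ∧ x < 2 ^ n ∧ 2 ^ lv c ≤ sv c x ∧ sv p (x / 2 ^ (lv c - lv p)) < 2 ^ lv p

theorem union_bound {α : Type*} (wt : α → ℝ) (W : ℕ → α → Prop) (b : ℕ → ℝ)
    (hb : ∀ e (S : Finset α), (∀ s ∈ S, W e s) → ∑ s ∈ S, wt s ≤ b e) (E : ℕ) :
    ∀ S : Finset α, (∀ s ∈ S, ∃ e, e < E ∧ W e s) → ∑ s ∈ S, wt s ≤ ∑ e ∈ range E, b e := by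
  classical
  induction E with
  | zero =>
    intro S hS
    have : S = ∅ := by
      rw [eq_empty_iff_forall_notMem]
      intro s hs
      obtain ⟨e, he, _⟩ := hS s hs
      omega
    simp [this]
  | succ E ih =>
    intro S hS
    rw [sum_range_succ, ← sum_filter_add_sum_filter_not S (fun s => W E s), add_comm]
    apply add_le_add
    · apply ih
      intro s hs
      rw [mem_filter] at hs
      obtain ⟨e, he, hW⟩ := hS s hs.1
      refine ⟨e, ?_, hW⟩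
      rcases Nat.lt_succ_iff_lt_or_eq.mp he with h | h
      · exact h
      · exact absurd (h ▸ hW) hs.2
    · exact hb E _ (fun s hs => (mem_filter.mp hs).2)

theorem union_bound' {α : Type*} (wt : α → ℝ) (W : ℕ → α → Prop) (b : ℕ → ℝ) (B : ℝ)
    (hb : ∀ e (S : Finset α), (∀ s ∈ S, W e s) → ∑ s ∈ S, wt s ≤ b e)
    (hB : ∀ E, ∑ e ∈ range E, b e ≤ B) (S : Finset α) (hS : ∀ s ∈ S, ∃ e, W e s) :
    ∑ s ∈ S, wt s ≤ B := by
  classical
  choose! e he using hS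
  refine (union_bound wt W b hb (S.sup e + 1) S ?_).trans (hB _)
  intro s hs
  exact ⟨e s, Nat.lt_succ_of_le (le_sup (f := e) hs), he s hs⟩

open Classical in
theorem out_weight (p c : ℕ) (hM : Mono p c) (S : Finset (ℕ × ℕ)) (hS : ∀ s ∈ S, Out p c s.1 s.2) :
    ∑ s ∈ S, ((1 : ℝ) / 2) ^ s.1 ≤ avg (lv c) (fun x => if 2 ^ lv c ≤ sv c x then 1 else 0) -
      avg (lv p) (fun x => if 2 ^ lv p ≤ sv p x then 1 else 0) := by
  rw [le_sub_iff_add_le, ← avg_lift hM.1.le]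
  have h1 : ∑ s ∈ S, ((1 : ℝ) / 2) ^ s.1 ≤ avg (lv c) (fun x => if Out p c (lv c) x then 1 else 0) := by
    unfold avg
    rw [sum_boole, sum_congr rfl (g := fun _ => ((1 : ℝ) / 2) ^ lv c)
      (fun s hs => by rw [(hS s hs).1]), sum_const, nsmul_eq_mul, one_div_pow, mul_one_div]
    apply div_le_div_of_nonneg_right _ (by positivity)
    rw [Nat.cast_le]
    apply card_le_card_of_injOn (fun s => s.2)
    · intro s hs
      have h := hS s hs
      simp only [coe_filter, mem_range, Set.mem_ofPred_eq]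
      refine ⟨h.1 ▸ h.2.1, rfl, h.1 ▸ h.2.1, h.2.2⟩
    · intro s hs t ht hst
      exact Prod.ext ((hS s hs).1.trans (hS t ht).1.symm) hst
  refine le_trans (add_le_add h1 le_rfl) ?_
  rw [← avg_add]
  apply avg_mono
  intro x hx
  have h2 := (hM.2 x hx).1
  by_cases h : 2 ^ lv p ≤ sv p (x / 2 ^ (lv c - lv p))
  · have h3 : 2 ^ lv c ≤ sv c x := by
      refine le_trans ?_ h2
      have e : 2 ^ lv c = 2 ^ lv p * 2 ^ (lv c - lv p) := by
        rw [← pow_add]; congr 1; have := hM.1; omega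
      rw [e]
      exact Nat.mul_le_mul_right _ h
    have h4 : ¬ Out p c (lv c) x := fun ho => absurd ho.2.2.2 (not_lt.mpr h)
    simp [h, h3, h4]
  · by_cases h4 : Out p c (lv c) x
    · simp [h, h4, h4.2.2.1]
    · simp only [h, h4, if_false, add_zero]
      split_ifs <;> norm_num

theorem seq_weight (U : ℕ → ℕ → Prop) (d : ℕ) (q : ℕ → ℕ) (hM : ∀ j, Mono (q j) (q (j + 1)))
    (hB : ∀ j, Bd (q j)) (hI : ∀ j n, Inv U d (q j) n) (S : Finset (ℕ × ℕ))
    (hS : ∀ s ∈ S, ∃ j, Out (q j) (q (j + 1)) s.1 s.2) :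
    ∑ s ∈ S, ((1 : ℝ) / 2) ^ s.1 ≤ 5 / 2 ^ d := by
  classical
  set a : ℕ → ℝ := fun j => avg (lv (q j)) (fun x => if 2 ^ lv (q j) ≤ sv (q j) x then 1 else 0)
    with ha
  apply union_bound' (fun s : ℕ × ℕ => ((1 : ℝ) / 2) ^ s.1) (fun j s => Out (q j) (q (j + 1)) s.1 s.2)
    (fun j => a (j + 1) - a j) _ (fun j S hS => out_weight _ _ (hM j) S hS) _ S hS
  intro E
  rw [sum_range_sub]
  have h1 : a E ≤ 5 / 2 ^ d := weight U d _ (hB E) (hI E)
  have h2 : 0 ≤ a 0 := by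
    rw [← avg_const (lv (q 0)) 0]
    apply avg_mono
    intro x _
    split_ifs <;> norm_num
  linarith

theorem seq_out (q : ℕ → ℕ) (h0 : q 0 = 0) (hM : ∀ j, Mono (q j) (q (j + 1))) (ξ : ℕ → ℕ)
    (hξ1 : ∀ n, ξ n < 2 ^ n) (hξ2 : ∀ m n, m ≤ n → ξ n / 2 ^ (n - m) = ξ m) (j : ℕ)
    (h : 2 ^ lv (q j) ≤ sv (q j) (ξ (lv (q j)))) :
    ∃ i n, Out (q i) (q (i + 1)) n (ξ n) := by
  induction j with
  | zero =>
    rw [h0, sv_zero] at h
    exact absurd h (not_le.mpr (by positivity))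
  | succ j ih =>
    by_cases hj : 2 ^ lv (q j) ≤ sv (q j) (ξ (lv (q j)))
    · exact ih hj
    · refine ⟨j, lv (q (j + 1)), rfl, hξ1 _, h, ?_⟩
      rw [hξ2 _ _ (hM j).1.le]
      exact not_le.mp hj

theorem seq_cover (U : ℕ → ℕ → Prop) (q : ℕ → ℕ) (h0 : q 0 = 0) (hM : ∀ j, Mono (q j) (q (j + 1)))
    (hC : ∀ j, Cover U (q j) (q (j + 1))) (ξ ζ : ℕ → ℕ)
    (hξ1 : ∀ n, ξ n < 2 ^ n) (hξ2 : ∀ m n, m ≤ n → ξ n / 2 ^ (n - m) = ξ m)
    (hζ1 : ∀ n, ζ n < 2 ^ n) (hζ2 : ∀ m n, m ≤ n → ζ n / 2 ^ (n - m) = ζ m)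
    (N : ℕ) (hN : ∀ n, N ≤ n → U n (ξ n) ∨ U n (ζ n)) :
    (∃ i n, Out (q i) (q (i + 1)) n (ξ n)) ∨ (∃ i n, Out (q i) (q (i + 1)) n (ζ n)) := by
  have hge : ∀ j, j ≤ lv (q j) := by
    intro j
    induction j with
    | zero => exact Nat.zero_le _
    | succ j ih => exact Nat.succ_le_of_lt (lt_of_le_of_lt ih (hM j).1)
  have := hC N _ (hξ1 _) _ (hζ1 _) (by
    intro m hm hkm
    rw [hξ2 m _ (by omega), hζ2 m _ (by omega)]
    exact hN m (by have := hge N; omega))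
  rcases this with h | h
  · exact Or.inl (seq_out q h0 hM ξ hξ1 hξ2 _ h)
  · exact Or.inr (seq_out q h0 hM ζ hζ1 hζ2 _ h)

/-- Validity of a candidate at a stage. -/
def Val (A : ℕ → ℕ → ℕ → Prop) (d p c b : ℕ) : Prop :=
  Mono p c ∧ Cover (A b.unpair.2) p c ∧ Inv (A b.unpair.2) d c b.unpair.1

theorem val_iff (U : ℕ → ℕ → Prop) (A : ℕ → ℕ → ℕ → Prop) (hs : ∀ t n x, A t n x → U n x)
    (hev : ∀ n x, U n x → ∀ᶠ t in Filter.atTop, A t n x) (d p c : ℕ) :
    (∀ b, Val A d p c b) ↔ (Mono p c ∧ Cover U p c ∧ ∀ n, Inv U d c n) := by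
  classical
  have hall : ∀ n, ∀ᶠ t in Filter.atTop, ∀ x ∈ range (2 ^ n), U n x → A t n x := by
    intro n
    rw [Filter.eventually_all_finset]
    intro x _
    by_cases h : U n x
    · exact (hev n x h).mono (fun t ht _ => ht)
    · exact Filter.Eventually.of_forall (fun t h' => absurd h' h)
  constructor
  · intro h
    refine ⟨(h 0).1, ?_, ?_⟩
    · have : ∀ᶠ t in Filter.atTop, ∀ m ∈ range (lv c + 1), ∀ x ∈ range (2 ^ m), U m x → A t m x := by
        rw [Filter.eventually_all_finset]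
        exact fun m _ => hall m
      obtain ⟨t, ht⟩ := this.exists
      have h1 := (h (Nat.pair 0 t)).2.1
      rw [Nat.unpair_pair] at h1
      intro x hx y hy hE
      apply h1 x hx y hy
      intro m hm hkm
      rcases hE m hm hkm with h2 | h2
      · exact Or.inl (ht m (mem_range.mpr hm) _ (mem_range.mpr (div_lt_pow (by omega) hx)) h2)
      · exact Or.inr (ht m (mem_range.mpr hm) _ (mem_range.mpr (div_lt_pow (by omega) hy)) h2)
    · intro n hn
      obtain ⟨t, ht⟩ := (hall n).exists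
      have h1 := (h (Nat.pair n t)).2.2
      rw [Nat.unpair_pair] at h1
      refine le_trans ?_ (h1 hn)
      apply Nat.add_le_add_right
      apply Nat.mul_le_mul_right
      apply sum_le_sum
      intro x hx
      apply Nat.add_le_add_left
      by_cases h2 : U n x
      · rw [if_pos h2, if_pos (ht x hx h2)]
      · rw [if_neg h2]; exact Nat.zero_le _
  · rintro ⟨h1, h2, h3⟩ b
    refine ⟨h1, ?_, ?_⟩
    · intro x hx y hy hE
      apply h2 x hx y hy
      intro m hm hkm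
      exact (hE m hm hkm).imp (hs _ _ _) (hs _ _ _)
    · intro hn
      refine le_trans ?_ (h3 _ hn)
      apply Nat.add_le_add_right
      apply Nat.mul_le_mul_right
      apply sum_le_sum
      intro x _
      apply Nat.add_le_add_left
      by_cases h4 : A b.unpair.2 b.unpair.1 x
      · rw [if_pos h4, if_pos (hs _ _ _ h4)]
      · rw [if_neg h4]; exact Nat.zero_le _

end Pool.Agent.H421Z.Kol
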