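import Pool.Agent.H421Z.Kol.Opt

set_option autoImplicit false

namespace Pool.Agent.H421Z.Kol

open Finset

/-- Average over the strings of length `n`, coded by the numbers below `2 ^ n`. -/
noncomputable def avg (n : ℕ) (f : ℕ → ℝ) : ℝ := (∑ x ∈ range (2 ^ n), f x) / 2 ^ n

theorem sum_half (N : ℕ) (f : ℕ → ℝ) : ∑ x ∈ range (2 * N), f (x / 2) = 2 * ∑ x ∈ range N, f x := by
  induction N with
  | zero => simp
  | succ N ih =>
    rw [show 2 * (N + 1) = 2 * N + 1 + 1 by ring, sum_range_succ, sum_range_succ, ih, sum_range_succ]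
    rw [show 2 * N / 2 = N by omega, show (2 * N + 1) / 2 = N by omega]
    ring

theorem avg_lift' (k j : ℕ) (f : ℕ → ℝ) : avg (k + j) (fun x => f (x / 2 ^ j)) = avg k f := by
  induction j with
  | zero => simp
  | succ j ih =>
    rw [← ih]
    unfold avg
    have h1 : (fun x => f (x / 2 ^ (j + 1))) = fun x => (fun y => f (y / 2 ^ j)) (x / 2) := by
      funext x
      simp only
      rw [Nat.div_div_eq_div_mul, pow_succ, mul_comm]
    rw [h1, show 2 ^ (k + (j + 1)) = 2 * 2 ^ (k + j) by ring, sum_half _ (fun y => f (y / 2 ^ j))]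
    rw [show (2 : ℝ) ^ (k + (j + 1)) = 2 * 2 ^ (k + j) by ring]
    field_simp

theorem avg_lift {k n : ℕ} (h : k ≤ n) (f : ℕ → ℝ) :
    avg n (fun x => f (x / 2 ^ (n - k))) = avg k f := by
  have := avg_lift' k (n - k) f
  rwa [Nat.add_sub_cancel' h] at this

theorem avg_mono {n : ℕ} {f g : ℕ → ℝ} (h : ∀ x, x < 2 ^ n → f x ≤ g x) : avg n f ≤ avg n g := by
  unfold avg
  apply div_le_div_of_nonneg_right _ (by positivity)
  exact sum_le_sum (fun x hx => h x (mem_range.mp hx))

theorem avg_add (n : ℕ) (f g : ℕ → ℝ) : avg n (fun x => f x + g x) = avg n f + avg n g := by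
  unfold avg
  rw [sum_add_distrib, add_div]

theorem avg_mul (n : ℕ) (c : ℝ) (f : ℕ → ℝ) : avg n (fun x => c * f x) = c * avg n f := by
  unfold avg
  rw [← mul_sum, mul_div_assoc]

theorem avg_const (n : ℕ) (c : ℝ) : avg n (fun _ => c) = c := by
  unfold avg
  simp

theorem div_div_pow {m k n : ℕ} (h1 : m ≤ k) (h2 : k ≤ n) (x : ℕ) :
    x / 2 ^ (n - k) / 2 ^ (k - m) = x / 2 ^ (n - m) := by
  rw [Nat.div_div_eq_div_mul, ← pow_add]
  congr 2
  omega

theorem div_lt_pow {k n x : ℕ} (h : k ≤ n) (hx : x < 2 ^ n) : x / 2 ^ (n - k) < 2 ^ k := by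
  rw [Nat.div_lt_iff_lt_mul (by positivity), ← pow_add]
  rwa [Nat.add_sub_cancel' h]

/-- Two strings of length `n` such that at every length in `(k, n]` one of the prefixes is in `U`. -/
def Edge (U : ℕ → ℕ → Prop) (k n x y : ℕ) : Prop :=
  ∀ m, m < n + 1 → k < m → U m (x / 2 ^ (n - m)) ∨ U m (y / 2 ^ (n - m))

theorem Edge_lift {U : ℕ → ℕ → Prop} {k k' n x y : ℕ} (h : k' ≤ n) (hE : Edge U k n x y) :
    Edge U k k' (x / 2 ^ (n - k')) (y / 2 ^ (n - k')) := by
  intro m hm hkm
  rw [div_div_pow (by omega) h, div_div_pow (by omega) h]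
  exact hE m (by omega) hkm

open Classical in
theorem step (U : ℕ → ℕ → Prop) (k K : ℕ) (u : ℕ → ℝ) (h0 : ∀ x, 0 ≤ u x) (h2 : ∀ x, u x ≤ 2)
    (η : ℝ) (hη : 0 < η) :
    ∃ k', K ≤ k' ∧ k < k' ∧ ∃ w : ℕ → ℝ, (∀ x, u (x / 2 ^ (k' - k)) ≤ w x) ∧
      (∀ x, x < 2 ^ k' → w x ≤ 2) ∧
      (∀ x, x < 2 ^ k' → ∀ y, y < 2 ^ k' → Edge U k k' x y → 1 ≤ w x ∨ 1 ≤ w y) ∧
      ∀ n, k' < n → avg n (fun x => (w (x / 2 ^ (n - k')) - u (x / 2 ^ (n - k))) *
        (if U n x then -1 else 1)) ≤ η := by
  have hopt := fun n => opt (range (2 ^ n)) (Edge U k n) (fun x => u (x / 2 ^ (n - k)))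
    (fun x => h0 _) (fun x => h2 _)
  choose r hr0 hr2 hrE hrS hrL using hopt
  set w : ℕ → ℕ → ℝ := fun n x => u (x / 2 ^ (n - k)) + r n x with hw
  set D : ℕ → ℝ := fun n => avg n (fun x => (w n x - 1) ^ 2) with hD
  have hD1 : ∀ n, D n ≤ 1 := by
    intro n
    rw [← avg_const n 1]
    apply avg_mono
    intro x hx
    have a1 := hr2 n x (mem_range.mpr hx)
    have a2 := h0 (x / 2 ^ (n - k))
    have a3 := hr0 n x
    simp only [hw]
    nlinarith
  set N := max K (k + 1) with hN
  have hbdd : BddAbove (Set.range (fun j => D (N + j))) := ⟨1, by rintro _ ⟨j, rfl⟩; exact hD1 _⟩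
  obtain ⟨j0, hj0⟩ := exists_lt_of_lt_ciSup
    (f := fun j => D (N + j)) (b := (⨆ j, D (N + j)) - η ^ 2) (by nlinarith)
  set k' := N + j0 with hk'
  have hKk : K ≤ k' := le_trans (le_max_left _ _) (Nat.le_add_right _ _)
  have hkk : k < k' := lt_of_lt_of_le (Nat.lt_succ_self k)
    (le_trans (le_max_right _ _) (Nat.le_add_right _ _))
  have hDn : ∀ n, k' ≤ n → D n - D k' ≤ η ^ 2 := by
    intro n hn
    have := le_ciSup hbdd (n - N)
    rw [show N + (n - N) = n by omega] at this
    linarith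
  refine ⟨k', hKk, hkk, w k', ?_, ?_, ?_, ?_⟩
  · intro x
    simp only [hw]
    linarith [hr0 k' x]
  · intro x hx
    exact hr2 k' x (mem_range.mpr hx)
  · intro x hx y hy hE
    have := hrE k' x (mem_range.mpr hx) y (mem_range.mpr hy) hE
    by_contra hcon
    push Not at hcon
    simp only [hw] at hcon
    linarith [hcon.1, hcon.2]
  · intro n hn
    have hpos : (0 : ℝ) < 2 ^ n := by positivity
    have hu : ∀ x, u (x / 2 ^ (n - k') / 2 ^ (k' - k)) = u (x / 2 ^ (n - k)) := fun x => by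
      rw [div_div_pow hkk.le hn.le]
    -- the cover inequality
    have c1 : avg n (fun x => (if U n x then (-1 : ℝ) else 1) * r n x) ≤ 0 := by
      have := hrL n (fun x => if U n x then (1 : ℝ) else -1) (by
        intro x _ y _ hE
        have := hE n (Nat.lt_succ_self n) (by omega)
        simp only [Nat.sub_self, pow_zero, Nat.div_one] at this
        rcases this with h | h
        · simp only [h, if_true]; split_ifs <;> norm_num
        · simp only [h, if_true]; split_ifs <;> norm_num)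
      unfold avg
      apply div_nonpos_of_nonpos_of_nonneg _ hpos.le
      have e : ∑ x ∈ range (2 ^ n), (if U n x then (-1 : ℝ) else 1) * r n x =
          -∑ x ∈ range (2 ^ n), (if U n x then (1 : ℝ) else -1) * r n x := by
        rw [← sum_neg_distrib]
        apply sum_congr rfl
        intro x _
        split_ifs <;> ring
      rw [e]; linarith
    have c2 : 0 ≤ avg n (fun x => (w k' (x / 2 ^ (n - k')) - 1) * r n x) := by
      have := hrL n (fun x => w k' (x / 2 ^ (n - k')) - 1) (by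
        intro x hx y hy hE
        have := hrE k' _ (mem_range.mpr (div_lt_pow hn.le (mem_range.mp hx))) _
          (mem_range.mpr (div_lt_pow hn.le (mem_range.mp hy))) (Edge_lift hn.le hE)
        simp only [hw]
        linarith)
      exact div_nonneg this hpos.le
    have c3 : avg n (fun x => (w k' (x / 2 ^ (n - k')) - 1) * r k' (x / 2 ^ (n - k'))) ≤ 0 := by
      rw [avg_lift hn.le (fun y => (w k' y - 1) * r k' y)]
      exact div_nonpos_of_nonpos_of_nonneg (hrS k') (by positivity)
    have c4 : avg n (fun x => (w k' (x / 2 ^ (n - k')) - 1) ^ 2) = D k' :=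
      avg_lift hn.le (fun y => (w k' y - 1) ^ 2)
    have c5 : avg n (fun x => (r k' (x / 2 ^ (n - k')) - r n x) ^ 2) ≤ η ^ 2 := by
      have e : (fun x => (r k' (x / 2 ^ (n - k')) - r n x) ^ 2) = fun x =>
          (((w n x - 1) ^ 2 + (-1) * (w k' (x / 2 ^ (n - k')) - 1) ^ 2) +
            (-2) * ((w k' (x / 2 ^ (n - k')) - 1) * r n x)) +
            2 * ((w k' (x / 2 ^ (n - k')) - 1) * r k' (x / 2 ^ (n - k'))) := by
        funext x
        simp only [hw, hu]
        ring
      rw [e, avg_add, avg_add, avg_add, avg_mul, avg_mul, avg_mul, c4]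
      have := hDn n hn.le
      simp only [hD] at this ⊢
      linarith
    have c6 : avg n (fun x => (w k' (x / 2 ^ (n - k')) - u (x / 2 ^ (n - k))) *
        (if U n x then -1 else 1)) ≤
        avg n (fun x => (if U n x then (-1 : ℝ) else 1) * r n x +
          (η / 2 + (1 / (2 * η)) * (r k' (x / 2 ^ (n - k')) - r n x) ^ 2)) := by
      apply avg_mono
      intro x _
      simp only [hw, hu]
      set z := r k' (x / 2 ^ (n - k')) - r n x with hz
      have hz1 : z ≤ η / 2 + 1 / (2 * η) * z ^ 2 := by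
        have : η / 2 + 1 / (2 * η) * z ^ 2 - z = (z - η) ^ 2 / (2 * η) := by field_simp; ring
        have h3 : 0 ≤ (z - η) ^ 2 / (2 * η) := by positivity
        linarith
      have hz2 : -z ≤ η / 2 + 1 / (2 * η) * z ^ 2 := by
        have : η / 2 + 1 / (2 * η) * z ^ 2 + z = (z + η) ^ 2 / (2 * η) := by field_simp; ring
        have h3 : 0 ≤ (z + η) ^ 2 / (2 * η) := by positivity
        linarith
      split_ifs <;> linarith
    rw [avg_add, avg_add, avg_const, avg_mul] at c6
    have c7 : 1 / (2 * η) * avg n (fun x => (r k' (x / 2 ^ (n - k')) - r n x) ^ 2) ≤ η / 2 := by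
      have := mul_le_mul_of_nonneg_left c5 (show 0 ≤ 1 / (2 * η) by positivity)
      have e : 1 / (2 * η) * η ^ 2 = η / 2 := by field_simp
      linarith
    linarith

end Pool.Agent.H421Z.Kol
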